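import Pool.Agent.Helper35.HG.StC

/-!
Project HG (MP_925021_gt), module RCB: record times.
-/

set_option autoImplicit false

namespace Helper1.HG

open Helper35.HG Helper35.HC Helper35.HSF Helper35.MS Helper35.PI Helper35.PI2 Helper32.CL
open scoped ContDiff Manifold Topology ENNReal BigOperators
open MeasureTheory Set Filter

/-- the threshold -/
theorem rcm_thr (σ C' Λ₀ : ℝ) (hσ : 0 < σ) (hC' : 0 < C') (hΛ₀ : 1 ≤ Λ₀) (Λ : ℝ)
    (hΛ : max Λ₀ ((20 * C') ^ (4 / σ)) ≤ Λ) : 0 < Λ ^ (-(σ / 4)) ∧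
      C' * Λ ^ (-(σ / 4)) ≤ 1 / 20 ∧ Λ ^ (-(σ / 4)) ≤ 1 ∧ 1 ≤ Λ ∧
      Λ ^ (1 - σ) = Λ * (Λ ^ (-(σ / 4))) ^ 4 ∧ Λ ^ (2 - σ) = Λ ^ 2 * (Λ ^ (-(σ / 4))) ^ 4 := by
  have h1 : 1 ≤ Λ := hΛ₀.trans ((le_max_left _ _).trans hΛ)
  have h0 : 0 < Λ := by linarith
  have hx : 0 < Λ ^ (-(σ / 4)) := Real.rpow_pos_of_pos h0 _
  have hb : 20 * C' ≤ Λ ^ (σ / 4) := by
    have h2 : (20 * C') ^ (4 / σ) ≤ Λ := (le_max_right _ _).trans hΛ
    have h3 : ((20 * C') ^ (4 / σ)) ^ (σ / 4) ≤ Λ ^ (σ / 4) :=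
      Real.rpow_le_rpow (by positivity) h2 (by positivity)
    rw [← Real.rpow_mul (by positivity)] at h3
    have e : 4 / σ * (σ / 4) = 1 := by field_simp
    rw [e, Real.rpow_one] at h3
    exact h3
  have hinv : Λ ^ (-(σ / 4)) * Λ ^ (σ / 4) = 1 := by
    rw [← Real.rpow_add h0]
    simp
  have hpow : (Λ ^ (-(σ / 4))) ^ 4 = Λ ^ (-σ) := by
    rw [← Real.rpow_natCast, ← Real.rpow_mul h0.le]
    congr 1
    push_cast
    ring
  refine ⟨hx, ?_, ?_, h1, ?_, ?_⟩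
  · nlinarith
  · exact Real.rpow_le_one_of_one_le_of_nonpos h1 (by linarith)
  · rw [hpow, sub_eq_add_neg, Real.rpow_add h0, Real.rpow_one]
  · rw [hpow, sub_eq_add_neg, Real.rpow_add h0]
    norm_num

theorem hRCB (hSPF : StSPF) : StRCB := by
  intro n hn N M _ _ _ _ _ _ T F ts κ₀ δ C₀ t₂ C σ Λ₀ hP
  have hnr : (2 : ℝ) ≤ n := by exact_mod_cast hn
  have hC := hP.C1
  have hK : 0 ≤ (n : ℝ) * (n + 2) / (2 * ((n : ℝ) - 1)) := by
    apply div_nonneg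
    · positivity
    · linarith
  set K : ℝ := (n : ℝ) * (n + 2) / (2 * ((n : ℝ) - 1)) with hKdef
  set D : ℝ := 6 * ((N : ℝ) + 1) * C * n with hD
  have hN1 : (1 : ℝ) ≤ (N : ℝ) + 1 := by
    have : (0 : ℝ) ≤ N := by positivity
    linarith
  have hD0 : 0 < D := by positivity
  have hC'0 : 0 < 2 * D + K * C := by positivity
  refine ⟨2 * D + K * C, σ / 4, max Λ₀ ((20 * (2 * D + K * C)) ^ (4 / σ)), hC'0,
    by have := hP.σ0; linarith, by have := hP.σ0; linarith, le_max_left _ _, ?_, ?_⟩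
  · intro Λ hΛ
    have h := (rcm_thr σ _ Λ₀ hP.σ0 hC'0 hP.L1 Λ hΛ).2.1
    linarith
  · intro t₀ ht₀ q₀ Λ hΛq hΛ hmax q
    obtain ⟨hx0, hx, hx1, h1, e1, e2⟩ := rcm_thr σ _ Λ₀ hP.σ0 hC'0 hP.L1 Λ hΛ
    set x : ℝ := Λ ^ (-(σ / 4)) with hxdef
    have h0 : 0 < Λ := by linarith
    have hΛ₀ : Λ₀ ≤ Λ := (le_max_left _ _).trans hΛ
    have ht₀' : t₀ ∈ Icc ts t₀ := ⟨(hP.t2.1.le).trans ht₀.1, le_rfl⟩
    have htJ : t₀ ∈ Ioo 0 T := ⟨hP.d.ts0.1.trans (hP.t2.1.trans_le ht₀.1), ht₀.2⟩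
    have hth : ∀ q, thN n F q t₀ ≤ C * (Λ * x ^ 4) := by
      intro q
      have := hP.th t₀ ht₀ Λ hΛ₀ hmax q
      rwa [e1] at this
    have heh : ∀ q, eH n F q t₀ ≤ C * (Λ ^ 2 * x ^ 4) := by
      intro q
      have := hP.eh t₀ ht₀ Λ hΛ₀ hmax q
      rwa [e2] at this
    have hs : Real.sqrt Λ ^ 2 = Λ := Real.sq_sqrt h0.le
    have hs0 : 0 < Real.sqrt Λ := Real.sqrt_pos.mpr h0
    have hCC : C ≤ C ^ 2 := by nlinarith
    have hnl : (n : ℝ) * (Real.sqrt Λ / n) = Real.sqrt Λ := by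
      field_simp
    have hSL : SLd n (Ioo 0 T) F t₀ (Real.sqrt Λ / n) (C * n ^ 2 * x ^ 2) q₀ := by
      refine ⟨hP.d.fl, htJ, ?_, by positivity, by positivity, ?_, ?_, ?_, ?_⟩
      · intro q s hs' hz
        have h2 := hP.d.Y1 s hs' q
        rw [hz] at h2
        norm_num at h2
      · rw [hnl, hΛq, Real.sqrt_sq (norm_nonneg _)]
      · intro q
        rw [hnl]
        apply Real.le_sqrt_of_sq_le
        exact hmax t₀ ht₀' q
      · intro q
        refine (hth q).trans ?_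
        have e3 : (C * n ^ 2 * x ^ 2) ^ 2 * (Real.sqrt Λ / n) ^ 2 =
            C ^ 2 * (Λ * x ^ 4) * (n : ℝ) ^ 2 := by
          rw [div_pow, hs]
          field_simp
        rw [e3]
        have h3 : C * (Λ * x ^ 4) ≤ C ^ 2 * (Λ * x ^ 4) :=
          mul_le_mul_of_nonneg_right hCC (by positivity)
        have h4 : C ^ 2 * (Λ * x ^ 4) * 1 ≤ C ^ 2 * (Λ * x ^ 4) * (n : ℝ) ^ 2 :=
          mul_le_mul_of_nonneg_left (by nlinarith) (by positivity)
        linarith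
      · intro q
        refine (heh q).trans ?_
        have e3 : (C * n ^ 2 * x ^ 2) ^ 2 * (Real.sqrt Λ / n) ^ 4 =
            C ^ 2 * (Λ ^ 2 * x ^ 4) := by
          have : Real.sqrt Λ ^ 4 = Λ ^ 2 := by
            calc Real.sqrt Λ ^ 4 = (Real.sqrt Λ ^ 2) ^ 2 := by ring
              _ = Λ ^ 2 := by rw [hs]
          rw [div_pow, this]
          field_simp
        rw [e3]
        exact mul_le_mul_of_nonneg_right hCC (by positivity)
    have hδ : D * x ≤ 1 / 40 := by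
      have h5 : 2 * (D * x) ≤ (2 * D + K * C) * x := by
        have : 0 ≤ K * C * x := by positivity
        linarith
      linarith
    have hNε : 36 * (N : ℝ) * (C * n ^ 2 * x ^ 2) ≤ (D * x) ^ 2 := by
      have e4 : (D * x) ^ 2 = 36 * (((N : ℝ) + 1) ^ 2 * C ^ 2) * (n ^ 2 * x ^ 2) := by
        rw [hD]
        ring
      have e5 : 36 * (N : ℝ) * (C * n ^ 2 * x ^ 2) = 36 * (N * C) * (n ^ 2 * x ^ 2) := by ring
      rw [e4, e5]
      apply mul_le_mul_of_nonneg_right _ (by positivity)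
      have h6 : (N : ℝ) ≤ ((N : ℝ) + 1) ^ 2 := by nlinarith
      have h7 : (N : ℝ) * C ≤ ((N : ℝ) + 1) ^ 2 * C ^ 2 :=
        mul_le_mul h6 hCC (by linarith) (by positivity)
      linarith
    have hmain := (hSPF n N hn M (Ioo 0 T) F t₀ (Real.sqrt Λ / n) (C * n ^ 2 * x ^ 2) q₀ hSL
      (D * x) (by positivity) (by linarith) hNε).1 q
    rw [hnl] at hmain
    have hsq : (1 - 2 * (D * x)) * Λ ≤ ‖HH (n := n) F q t₀‖ ^ 2 := by
      have h8 : 0 ≤ (1 - D * x) * Real.sqrt Λ := by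
        apply mul_nonneg _ hs0.le
        linarith
      have h9 : ((1 - D * x) * Real.sqrt Λ) ^ 2 ≤ ‖HH (n := n) F q t₀‖ ^ 2 :=
        pow_le_pow_left₀ h8 hmain 2
      have e6 : ((1 - D * x) * Real.sqrt Λ) ^ 2 = (1 - D * x) ^ 2 * Λ := by
        rw [mul_pow, hs]
      rw [e6] at h9
      have h10 : (1 - 2 * (D * x)) * Λ ≤ (1 - D * x) ^ 2 * Λ := by
        apply mul_le_mul_of_nonneg_right _ h0.le
        nlinarith [sq_nonneg (D * x)]
      linarith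
    have hKth : K * thN n F q t₀ ≤ K * C * x * Λ := by
      have h11 : K * thN n F q t₀ ≤ K * (C * (Λ * x ^ 4)) := mul_le_mul_of_nonneg_left (hth q) hK
      have h12 : x ^ 4 ≤ x := by
        have : x ^ 3 ≤ 1 := pow_le_one₀ hx0.le hx1
        nlinarith
      have h13 : K * (C * (Λ * x ^ 4)) ≤ K * (C * (Λ * x)) := by
        apply mul_le_mul_of_nonneg_left _ hK
        apply mul_le_mul_of_nonneg_left _ (by linarith)
        exact mul_le_mul_of_nonneg_left h12 h0.le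
      calc K * thN n F q t₀ ≤ K * (C * (Λ * x)) := h11.trans h13
        _ = K * C * x * Λ := by ring
    unfold ZT
    rw [← hKdef]
    have e7 : (1 - (2 * D + K * C) * x) * Λ = (1 - 2 * (D * x)) * Λ - K * C * x * Λ := by ring
    rw [e7]
    linarith

end Helper1.HG
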