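import Pool.Agent.Helper35.HG.StE

/-!
Project HG (MP_925021_gt), module RL1: the real inequality in the regime `X ≤ 7/4`.
-/

set_option autoImplicit false

namespace Helper1.HG

open Helper35.HG Helper35.HC Helper35.HSF Helper35.MS Helper35.PI Helper35.PI2 Helper32.CL

theorem rl1_hh (X : ℝ) (hX : 0 ≤ X) : 0 < hh X ∧ hh X ≤ 1 := by
  unfold hh
  constructor
  · positivity
  · rw [div_le_one (by positivity)]
    linarith

theorem rl1_Lf (X : ℝ) (hX : 0 ≤ X) : 263 / 1000 ≤ Lf X ∧ Lf X ≤ 433 / 1000 := by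
  obtain ⟨h0, h1⟩ := rl1_hh X hX
  unfold Lf
  constructor
  · nlinarith
  · nlinarith [sq_nonneg (1 - hh X)]

theorem rl1_Jf (X : ℝ) (hX : 0 ≤ X) : 263 / 1000 + 23 / 100 * X ≤ Jf X := by
  obtain ⟨h0, h1⟩ := rl1_hh X hX
  unfold Jf
  linarith

/-- the elementary facts -/
theorem rl1_basic (X u g N R : ℝ) (h : RH X u g N R) :
    0 ≤ X ∧ 0 ≤ g ∧ 3 / 10 * u ≤ 9 / 1280 * X ∧ 0 ≤ Vf X u g ∧ Vf X u g ≤ Jf X + 3 / 10 * g ∧
      0 ≤ D1f u g ∧ D1f u g ≤ 3 / 10 * g ∧ 4 / 3 * (g * (g + 2)) ≤ 4 / 3 * N * (g * (g + 2)) ∧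
      R ≤ 92 / 100 * (4 / 3 * N * (g * (g + 2))) := by
  obtain ⟨N1, u0, ug, hX, R0, R1, R2⟩ := h
  have g0 : 0 ≤ g := u0.trans ug
  have hu2 : 0 ≤ u * (u + 2) := by positivity
  have hN2 : 1 ≤ N ^ 2 := by nlinarith
  have hX0 : 0 ≤ X := by rw [hX]; positivity
  have hXu : 3 / 10 * u ≤ 9 / 1280 * X := by
    have h1 : u * (u + 2) ≤ N ^ 2 * (u * (u + 2)) := by nlinarith
    have h2 : 2 * u ≤ u * (u + 2) := by nlinarith
    have h3 : X = 64 / 3 * (N ^ 2 * (u * (u + 2))) := by rw [hX]; ring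
    linarith
  have hJ := rl1_Jf X hX0
  have hD : 0 ≤ u / (1 + u) ∧ u / (1 + u) ≤ 1 := by
    refine ⟨by positivity, ?_⟩
    rw [div_le_one (by positivity)]
    linarith
  have hgg : 0 ≤ g * (g + 2) := by positivity
  refine ⟨hX0, g0, hXu, ?_, ?_, ?_, ?_, ?_, ?_⟩
  · unfold Vf
    linarith
  · unfold Vf
    linarith
  · unfold D1f
    nlinarith [mul_le_mul_of_nonneg_left hD.2 u0]
  · unfold D1f
    nlinarith [mul_nonneg u0 hD.1]
  · nlinarith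
  · have h1 : 0 ≤ N * (u * (u + 2)) := by positivity
    nlinarith

/-- `FR` is at most the sum of the estimates -/
theorem rl1_up (a : ℝ) (ha : 0 ≤ a) (ha1 : a ≤ 4 / 5) (X u g N R : ℝ) (h : RH X u g N R) :
    FR a X u g N R ≤ Mf a X
      + 2 * (2 - a * Lf X - (1 / 2 - a / 8) * (433 / 1000)) * (9 / 1280 * X)
      - (2 - a * Lf X - (1 / 2 - a / 8) * (433 / 1000)) * (3 / 10 * g)
      + (a * (Jf X + 3 / 10 * g) + X + 1) * (3 / 10 * g)
      + (1 / 2 - a / 8) * ((Jf X + 3 / 10 * g) * (3 / 10 * g))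
      + (1 - a / 4) * ((Jf X + 3 / 10 * g) * (92 / 100 * (4 / 3 * N * (g * (g + 2)))))
      + (Jf X + 3 / 10 * g) / 100
      - 12488 / 10000 * (4 / 3 * N * (g * (g + 2))) ^ 2 / (1 + g)
      + 323 / 10000 * (4 / 3 * N * (g * (g + 2))) + 105 / 10000 - 13 / 1000 * g
      - 26 / 1000 * g ^ 2 := by
  obtain ⟨hX0, g0, hXu, hV0, hV1, hD0, hD1, hz, hR⟩ := rl1_basic X u g N R h
  obtain ⟨hL0, hL1⟩ := rl1_Lf X hX0
  have hR0 := h.R0
  have hu0 := h.u0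
  have hVdef : Vf X u g = Jf X + 3 / 10 * g - 3 / 5 * u := rfl
  have hκ : 0 ≤ 2 - a * Lf X - (1 / 2 - a / 8) * (433 / 1000) := by nlinarith
  have h1 : (a * Vf X u g + X + 1) * D1f u g
      ≤ (a * (Jf X + 3 / 10 * g) + X + 1) * (3 / 10 * g) := by
    apply mul_le_mul _ hD1 hD0
    · have : 0 ≤ Jf X + 3 / 10 * g := hV0.trans hV1
      positivity
    · nlinarith
  have h2 : (1 / 2 - a / 8) * (Vf X u g * (3 / 10 * g))
      ≤ (1 / 2 - a / 8) * ((Jf X + 3 / 10 * g) * (3 / 10 * g)) := by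
    apply mul_le_mul_of_nonneg_left _ (by linarith)
    apply mul_le_mul_of_nonneg_right hV1 (by positivity)
  have h4 : (1 - a / 4) * (Vf X u g * R)
      ≤ (1 - a / 4) * ((Jf X + 3 / 10 * g) * (92 / 100 * (4 / 3 * N * (g * (g + 2))))) := by
    apply mul_le_mul_of_nonneg_left _ (by linarith)
    exact mul_le_mul hV1 hR hR0 (hV0.trans hV1)
  have h5 : (2 - a * Lf X - (1 / 2 - a / 8) * (433 / 1000)) * (3 / 10 * u)
      ≤ (2 - a * Lf X - (1 / 2 - a / 8) * (433 / 1000)) * (9 / 1280 * X) :=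
    mul_le_mul_of_nonneg_left hXu hκ
  have h6 : 0 ≤ (4 / 3 * N * (g * (g + 2))) ^ 2 / (1 + g) := by positivity
  have e6 : 16 / 5 * N ^ 2 * (g * (g + 2)) ^ 2 / (1 + g)
      = 9 / 5 * ((4 / 3 * N * (g * (g + 2))) ^ 2 / (1 + g)) := by ring
  have e7 : 12488 / 10000 * (4 / 3 * N * (g * (g + 2))) ^ 2 / (1 + g)
      = 12488 / 10000 * ((4 / 3 * N * (g * (g + 2))) ^ 2 / (1 + g)) := by ring
  have e1 : FR a X u g N R = Mf a X
      - (2 - a * Lf X - (1 / 2 - a / 8) * (433 / 1000)) * (3 / 10 * g)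
      + 2 * ((2 - a * Lf X - (1 / 2 - a / 8) * (433 / 1000)) * (3 / 10 * u))
      + (a * Vf X u g + X + 1) * D1f u g
      + (1 / 2 - a / 8) * (Vf X u g * (3 / 10 * g))
      + (1 - a / 4) * (Vf X u g * R) + Vf X u g / 100
      - 6938 / 10000 * (16 / 5 * N ^ 2 * (g * (g + 2)) ^ 2 / (1 + g))
      + 323 / 10000 * (4 / 3 * N * (g * (g + 2))) + 105 / 10000 - 13 / 1000 * g
      - 26 / 1000 * g ^ 2 := by
    unfold FR Mf
    rw [hVdef]
    ring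
  rw [e1, e6, e7]
  linarith

theorem hRL1 (hPQ1 : StPQ1) : StRL1 := by
  intro X u g N R h hX74
  obtain ⟨hX0, g0, hXu, hV0, hV1, hD0, hD1, hz, hR⟩ := rl1_basic X u g N R h
  obtain ⟨q8, q0⟩ := hPQ1 X (4 / 3 * N * (g * (g + 2))) g hX0 hX74 g0 hz
  constructor
  · have h1 := rl1_up (4 / 5) (by norm_num) le_rfl X u g N R h
    unfold T8 at q8
    linarith
  · have h1 := rl1_up 0 le_rfl (by norm_num) X u g N R h
    unfold T0 at q0
    linarith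

end Helper1.HG
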